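import Pool.Agent.Helper61.PC.Cop

/-!
# Project PC, block (K3): the count

Lower bound: the `ℓ i j` and `f` in the `p` copies have rank `q m + p`. Upper bound: the copies of `X`, of two of the `u i`, `q - 2`
constants, and for every `i` at most `m - Dr i` coefficients generate everything.
-/

set_option autoImplicit false

namespace Pool.Agent.PC

open Pool.Agent.GS MvPolynomial AlgebraicIndependent

universe u

section

variable {k₀ F E Ω : Type u} [Field k₀] [Field F] [Field E] [Field Ω] [Algebra k₀ F] [Algebra F E] [Algebra F Ω]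
  [Algebra k₀ Ω] [IsScalarTower k₀ F Ω] {p : ℕ}

theorem Cop.cl_sub (C : Cop F E Ω p) (a : Fin p) {S : Set Ω} (hS : S ⊆ C.L a) : cl k₀ S ⊆ C.L a := by
  intro z hz
  rw [mem_cl] at hz
  obtain ⟨P, hP0, hP⟩ := hz
  have hsub : ∀ y : Algebra.adjoin k₀ S, (y : Ω) ∈ C.L a := by
    intro y
    have h1 : Algebra.adjoin k₀ S ≤
        { (C.L a).toSubring with
          algebraMap_mem' := fun c => by
            show algebraMap k₀ Ω c ∈ C.L a
            rw [IsScalarTower.algebraMap_apply k₀ F Ω]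
            exact C.cst a _ } := Algebra.adjoin_le hS
    exact h1 y.2
  refine C.acl a (P.map (algebraMap (Algebra.adjoin k₀ S) Ω)) ?_ (fun i => ?_) z ?_
  · rw [Ne, Polynomial.map_eq_zero_iff (FaithfulSMul.algebraMap_injective _ _)]
    exact hP0
  · rw [Polynomial.coeff_map]
    exact hsub _
  · rw [Polynomial.eval_map_algebraMap]
    exact hP

theorem Cop.not_mem (C : Cop F E Ω p) (a : Fin p) {f : E} (hf : ¬ Cst F f) : C.φ a f ∉ C.L a := by
  intro h
  have hli : LinearIndependent F ![(1 : E), f] := by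
    rw [LinearIndependent.pair_iff]
    intro s t hst
    have ht : t = 0 := by
      by_contra ht
      apply hf
      refine ⟨- s / t, ?_⟩
      have ht' : algebraMap F E t ≠ 0 := (map_ne_zero _).2 ht
      rw [map_div₀, map_neg, eq_div_iff ht']
      rw [Algebra.smul_def, Algebra.smul_def, mul_one] at hst
      linear_combination hst
    rw [ht, zero_smul, add_zero, Algebra.smul_def, mul_one] at hst
    exact ⟨(map_eq_zero _).1 hst, ht⟩
  have h1 := C.ld a ![(1 : E), f] hli ![- C.φ a f, 1] (by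
    intro j
    fin_cases j
    · exact neg_mem h
    · exact one_mem _) (by
    rw [Fin.sum_univ_two]
    simp) 1
  exact one_ne_zero h1

/-- the lower bound -/
theorem low_rk (C : Cop F E Ω p) {q m : ℕ} (ℓ : Fin q → Fin m → F)
    (hℓ : AlgebraicIndependent k₀ fun t : Fin q × Fin m => ℓ t.1 t.2) {f : E} (hf : ¬ Cst F f) :
    ((q * m + p : ℕ) : ℕ∞) ≤ rk k₀ ((Set.range fun t : Fin q × Fin m => algebraMap F Ω (ℓ t.1 t.2)) ∪
      Set.range fun a => C.φ a f) := by
  have h0 : AlgebraicIndependent k₀ fun t : Fin q × Fin m => algebraMap F Ω (ℓ t.1 t.2) :=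
    hℓ.map' (f := IsScalarTower.toAlgHom k₀ F Ω) (algebraMap F Ω).injective
  have h1 := rk_of_algInd _ h0
  have h2 : ∀ t : ℕ, t ≤ p → ((q * m + t : ℕ) : ℕ∞) ≤
      rk k₀ ((Set.range fun t : Fin q × Fin m => algebraMap F Ω (ℓ t.1 t.2)) ∪
        {z | ∃ a : Fin p, a.1 < t ∧ z = C.φ a f}) := by
    intro t
    induction t with
    | zero =>
      intro _
      refine le_trans ?_ (rk_mono Set.subset_union_left)
      rw [h1]
      simp
    | succ t ih =>
      intro ht
      have h3 := ih (by omega)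
      let a : Fin p := ⟨t, by omega⟩
      set S := (Set.range fun t : Fin q × Fin m => algebraMap F Ω (ℓ t.1 t.2)) ∪
        {z | ∃ a : Fin p, a.1 < t ∧ z = C.φ a f} with hS
      have hSL : S ⊆ C.L a := by
        rintro z (⟨t, rfl⟩ | ⟨b, hb, rfl⟩)
        · exact C.cst a _
        · exact C.mem a b hb f
      have h4 : C.φ a f ∉ cl k₀ S := fun h => C.not_mem a hf (C.cl_sub a hSL h)
      have h5 : rk k₀ (insert (C.φ a f) S) = rk k₀ S + 1 := by
        unfold rk
        exact (matroid k₀ Ω).eRk_insert_eq_add_one ⟨by simp, h4⟩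
      have h6 : insert (C.φ a f) S ⊆ (Set.range fun t : Fin q × Fin m => algebraMap F Ω (ℓ t.1 t.2)) ∪
          {z | ∃ a : Fin p, a.1 < t + 1 ∧ z = C.φ a f} := by
        rintro z (rfl | hz | ⟨b, hb, rfl⟩)
        · exact Or.inr ⟨a, Nat.lt_succ_self t, rfl⟩
        · exact Or.inl hz
        · exact Or.inr ⟨b, by omega, rfl⟩
      refine le_trans ?_ (rk_mono h6)
      rw [h5]
      have h7 : ((q * m + (t + 1) : ℕ) : ℕ∞) = ((q * m + t : ℕ) : ℕ∞) + 1 := by push_cast; ring
      rw [h7]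
      exact add_le_add_left h3 1
  refine (h2 p le_rfl).trans (rk_mono (Set.union_subset_union_right _ ?_))
  rintro z ⟨a, -, rfl⟩
  exact ⟨a, rfl⟩

theorem rk_union_le (S T : Set Ω) : rk k₀ (S ∪ T) ≤ rk k₀ S + rk k₀ T :=
  (matroid k₀ Ω).eRk_union_le_eRk_add_eRk S T

theorem rk_range_le {n : ℕ} (g : Fin n → Ω) : rk k₀ (Set.range g) ≤ n := by
  have h := rk_image_le (k := k₀) (Finset.univ : Finset (Fin n)) g
  rwa [Finset.coe_univ, Set.image_univ, Finset.card_univ, Fintype.card_fin] at h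

theorem cl_of_pow {S : Set Ω} {z : Ω} {M : ℕ} (hM : 0 < M) (h : z ^ M ∈ cl k₀ S) : z ∈ cl k₀ S := by
  rw [mem_cl] at h ⊢
  exact IsAlgebraic.of_pow hM h

/-- the conclusion from a generating set -/
theorem count_of (C : Cop F E Ω p) {q m R K : ℕ} (ℓ : Fin q → Fin m → F)
    (hℓ : AlgebraicIndependent k₀ fun t : Fin q × Fin m => ℓ t.1 t.2) (X : Set E) {f : E} (hf : ¬ Cst F f)
    (hfX : f ∈ X) (hR : rk k₀ (⋃ a, C.φ a '' X) ≤ R) (u : Fin q → E) (s : Fin q → Finset (Fin m))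
    (hgen : ∀ i j, algebraMap F Ω (ℓ i j) ∈ cl k₀ ((⋃ a, C.φ a '' X) ∪ (Set.range fun a => C.φ a (u i)) ∪
      (fun j => algebraMap F Ω (ℓ i j)) '' s i)) (T : Set Ω) (hT : rk k₀ T ≤ K)
    (hu : ∀ a i, C.φ a (u i) ∈ cl k₀ ((⋃ a, C.φ a '' X) ∪ T)) :
    q * m + p ≤ R + K + ∑ i, (s i).card := by
  classical
  set L₀ : Set Ω := (fun t : (Σ _ : Fin q, Fin m) => algebraMap F Ω (ℓ t.1 t.2)) '' (Finset.univ.sigma s : Finset _)
    with hL₀
  have hL : rk k₀ L₀ ≤ (∑ i, (s i).card : ℕ) := by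
    have h1 := rk_image_le (k := k₀) (Finset.univ.sigma s) (fun t : (Σ _ : Fin q, Fin m) => algebraMap F Ω (ℓ t.1 t.2))
    rwa [Finset.card_sigma] at h1
  set G : Set Ω := ((⋃ a, C.φ a '' X) ∪ T) ∪ L₀ with hG
  have hGrk : rk k₀ G ≤ ((R + K + ∑ i, (s i).card : ℕ) : ℕ∞) := by
    refine (rk_union_le _ _).trans ?_
    have h1 := (rk_union_le (k₀ := k₀) (⋃ a, C.φ a '' X) T).trans (add_le_add hR hT)
    push_cast
    have h2 := add_le_add h1 hL
    push_cast at h2
    exact h2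
  have hsub : ((Set.range fun t : Fin q × Fin m => algebraMap F Ω (ℓ t.1 t.2)) ∪ Set.range fun a => C.φ a f) ⊆
      cl k₀ G := by
    rintro z (⟨t, rfl⟩ | ⟨a, rfl⟩)
    · refine cl_subset ?_ (hgen t.1 t.2)
      rintro z ((hz | ⟨a, rfl⟩) | ⟨j, hj, rfl⟩)
      · exact subset_cl _ (Or.inl (Or.inl hz))
      · exact cl_mono Set.subset_union_left (hu a t.1)
      · refine subset_cl _ (Or.inr ⟨⟨t.1, j⟩, ?_, rfl⟩)
        rw [Finset.mem_coe, Finset.mem_sigma]
        exact ⟨Finset.mem_univ _, hj⟩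
    · exact subset_cl _ (Or.inl (Or.inl (Set.mem_iUnion.2 ⟨a, f, hfX, rfl⟩)))
  have h1 := (low_rk C ℓ hℓ hf).trans ((rk_le_of_subset hsub).trans hGrk)
  exact_mod_cast h1

end

theorem count {k₀ F E Ω : Type u} [Field k₀] [Field F] [IsAlgClosed F] [Field E] [Field Ω] [Algebra k₀ F] [Algebra F E]
    [Algebra F Ω] [Algebra k₀ Ω] [IsScalarTower k₀ F Ω] {p q m R : ℕ} (hp : 1 ≤ p) (C : Cop F E Ω p)
    (ℓ : Fin q → Fin m → F) (hℓ : AlgebraicIndependent k₀ fun t : Fin q × Fin m => ℓ t.1 t.2) (X : Set E) (f : E)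
    (hf : ¬ Cst F f) (hfX : f ∈ X) (hR : rk k₀ (⋃ a, C.φ a '' X) ≤ R) (u : Fin q → E) (hu : ∀ i, u i ≠ 0)
    (hrk : Rk F u 1) (Dr : Fin q → ℕ)
    (hgen : ∀ i, ∃ s : Finset (Fin m), s.card + Dr i ≤ m ∧ ∀ j, algebraMap F Ω (ℓ i j) ∈
      cl k₀ ((⋃ a, C.φ a '' X) ∪ (Set.range fun a => C.φ a (u i)) ∪ (fun j => algebraMap F Ω (ℓ i j)) '' s)) :
    ∑ i, Dr i + 2 ≤ R + p + q := by
  classical
  choose s hs hgen using hgen
  have hsum : ∑ i, (s i).card + ∑ i, Dr i ≤ q * m := by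
    rw [← Finset.sum_add_distrib]
    refine (Finset.sum_le_sum fun i _ => hs i).trans ?_
    simp
  rcases Nat.eq_zero_or_pos q with hq | hq
  · subst hq
    have h1 := count_of (K := 0) C ℓ hℓ X hf hfX hR u s hgen ∅ (by
      refine (rk_le_card _).trans ?_
      simp) (fun a i => i.elim0)
    simp only [Finset.univ_eq_empty, Finset.sum_empty] at h1 ⊢
    omega
  let i0 : Fin q := ⟨0, hq⟩
  by_cases hall : ∀ j, Cst F (u j / u i0)
  · choose c hc using hall
    have hcu : ∀ j, u j = algebraMap F E (c j) * u i0 := by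
      intro j
      rw [← hc j, div_mul_cancel₀ _ (hu i0)]
    obtain ⟨Jc, hJc⟩ : ∃ Jc : Finset (Fin q), Jc = Finset.univ.erase i0 := ⟨_, rfl⟩
    have hJ : rk k₀ ((fun j => algebraMap F Ω (c j)) '' (Jc : Set (Fin q))) ≤ ((q - 1 : ℕ) : ℕ∞) := by
      have h := rk_image_le (k := k₀) Jc fun j => algebraMap F Ω (c j)
      rwa [hJc, Finset.card_erase_of_mem (Finset.mem_univ _), Finset.card_univ, Fintype.card_fin, ← hJc] at h
    have h1 := count_of (K := p + (q - 1)) C ℓ hℓ X hf hfX hR u s hgen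
      ((Set.range fun a => C.φ a (u i0)) ∪ (fun j => algebraMap F Ω (c j)) '' (Jc : Set (Fin q))) (by
      refine (rk_union_le _ _).trans ?_
      rw [Nat.cast_add]
      exact add_le_add (rk_range_le _) hJ) (by
      intro a j
      have h0 : C.φ a (u i0) ∈ cl k₀ ((⋃ a, C.φ a '' X) ∪ ((Set.range fun a => C.φ a (u i0)) ∪
          (fun j => algebraMap F Ω (c j)) '' (Jc : Set (Fin q)))) :=
        subset_cl _ (Or.inr (Or.inl ⟨a, rfl⟩))
      by_cases hj : j = i0
      · rw [hj]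
        exact h0
      · rw [hcu j, map_mul, AlgHom.commutes]
        refine cl_mul (subset_cl _ (Or.inr (Or.inr ⟨j, ?_, rfl⟩))) h0
        rw [hJc, Finset.mem_coe, Finset.mem_erase]
        exact ⟨hj, Finset.mem_univ _⟩)
    omega
  · push Not at hall
    obtain ⟨j1, hj1⟩ := hall
    have hμ : ∀ m : ℤ, Cst F ((u j1 / u i0) ^ m) → m = 0 := by
      intro m hm
      by_contra hne
      apply hj1
      refine cst_of_pow _ m.natAbs (Int.natAbs_pos.2 hne) ?_
      rcases Int.natAbs_eq m with h | h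
      · rw [h, zpow_natCast] at hm
        exact hm
      · rw [h, zpow_neg, zpow_natCast] at hm
        obtain ⟨c, hc⟩ := hm
        refine ⟨c⁻¹, ?_⟩
        rw [map_inv₀, ← hc, inv_inv]
    obtain ⟨M, w, hM, -, -, hw⟩ := slopes u hrk j1 i0 (hu j1) (hu i0) hμ
    choose c hc0 hc using fun h => hw h (hu h)
    have hne : j1 ≠ i0 := by
      rintro rfl
      apply hj1
      rw [div_self (hu _)]
      exact ⟨1, (map_one _).symm⟩
    have hq2 : 2 ≤ q := by
      have h1 : ({i0, j1} : Finset (Fin q)).card ≤ Fintype.card (Fin q) := Finset.card_le_univ _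
      rwa [Finset.card_pair hne.symm, Fintype.card_fin] at h1
    obtain ⟨Jc, hJc⟩ : ∃ Jc : Finset (Fin q), Jc = (Finset.univ.erase i0).erase j1 := ⟨_, rfl⟩
    have hJcard : Jc.card = q - 2 := by
      rw [hJc, Finset.card_erase_of_mem, Finset.card_erase_of_mem (Finset.mem_univ _), Finset.card_univ,
        Fintype.card_fin]
      · omega
      · rw [Finset.mem_erase]
        exact ⟨hne, Finset.mem_univ _⟩
    have hJ : rk k₀ ((fun j => algebraMap F Ω (c j)) '' (Jc : Set (Fin q))) ≤ ((q - 2 : ℕ) : ℕ∞) := by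
      have h := rk_image_le (k := k₀) Jc fun j => algebraMap F Ω (c j)
      rwa [hJcard] at h
    obtain ⟨T, hT⟩ : ∃ T : Set Ω, T = ((Set.range fun a => C.φ a (u i0)) ∪ Set.range fun a => C.φ a (u j1)) ∪
      (fun j => algebraMap F Ω (c j)) '' (Jc : Set (Fin q)) := ⟨_, rfl⟩
    have h1 := count_of (K := p + p + (q - 2)) C ℓ hℓ X hf hfX hR u s hgen T (by
      rw [hT]
      refine (rk_union_le _ _).trans ?_
      rw [Nat.cast_add, Nat.cast_add]
      exact add_le_add ((rk_union_le _ _).trans (add_le_add (rk_range_le _) (rk_range_le _))) hJ) (by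
      intro a j
      have h0 : C.φ a (u i0) ∈ cl k₀ ((⋃ a, C.φ a '' X) ∪ T) := by
        rw [hT]
        exact subset_cl _ (Or.inr (Or.inl (Or.inl ⟨a, rfl⟩)))
      have h0' : C.φ a (u j1) ∈ cl k₀ ((⋃ a, C.φ a '' X) ∪ T) := by
        rw [hT]
        exact subset_cl _ (Or.inr (Or.inl (Or.inr ⟨a, rfl⟩)))
      by_cases hj : j = i0
      · rw [hj]
        exact h0
      by_cases hj' : j = j1
      · rw [hj']
        exact h0'
      have h2 : algebraMap F Ω (c j) ∈ cl k₀ ((⋃ a, C.φ a '' X) ∪ T) := by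
        rw [hT]
        refine subset_cl _ (Or.inr (Or.inr ⟨j, ?_, rfl⟩))
        rw [Finset.mem_coe, hJc, Finset.mem_erase, Finset.mem_erase]
        exact ⟨hj', hj, Finset.mem_univ _⟩
      have h3 : (C.φ a (u j) / C.φ a (u i0)) ^ M = algebraMap F Ω (c j) * (C.φ a (u j1) / C.φ a (u i0)) ^ w j := by
        have := congrArg (C.φ a) (hc j)
        rw [map_pow, map_div₀, map_mul, map_zpow₀, map_div₀, AlgHom.commutes] at this
        exact this
      have h4 : C.φ a (u j) / C.φ a (u i0) ∈ cl k₀ ((⋃ a, C.φ a '' X) ∪ T) := by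
        apply cl_of_pow hM
        rw [h3]
        exact cl_mul h2 (cl_zpow (cl_div h0' h0) _)
      have h5 : C.φ a (u i0) ≠ 0 := (map_ne_zero _).2 (hu i0)
      rw [← div_mul_cancel₀ (C.φ a (u j)) h5]
      exact cl_mul h4 h0)
    omega

end Pool.Agent.PC
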