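import Pool.Agent.Helper61.PC.Step
import Pool.Agent.Helper36.GS.Glue

/-!
# Project PC, hyperplane sections: the number of hyperplanes which meet a linear section of `X` in the same hyperplane
-/

set_option autoImplicit false

namespace Pool.Agent.PC

open Pool.Agent.GS MvPolynomial

universe u

/-- the linear polynomial with the coefficients `c` -/
noncomputable def lp {F : Type u} [Field F] {N : ℕ} (c : Fin (N + 1) → F) : MvPolynomial (Fin (N + 1)) F :=
  ∑ j, C (c j) * X j

theorem aeval_lp {F K : Type u} [Field F] [Field K] [Algebra F K] {N : ℕ} (c : Fin (N + 1) → F) (y : Fin (N + 1) → K) :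
    aeval y (lp c) = lin c y := by
  unfold lp lin
  rw [map_sum]
  refine Finset.sum_congr rfl fun j _ => ?_
  rw [map_mul, aeval_C, aeval_X]

theorem homog_lp {F : Type u} [Field F] {N : ℕ} (c : Fin (N + 1) → F) : (lp c).IsHomogeneous 1 := by
  unfold lp
  refine IsHomogeneous.sum _ _ _ fun j _ => ?_
  have h1 := (isHomogeneous_C (Fin (N + 1)) (c j)).mul (isHomogeneous_X F j)
  rwa [zero_add] at h1

/-- the equations of `X` and the linear relations of `x` over `F` -/
def XW {k₀ F E : Type u} [Field k₀] [Field F] [Field E] [Algebra k₀ F] [Algebra F E] {N : ℕ}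
    (I : Set (MvPolynomial (Fin (N + 1)) k₀)) (x : Fin (N + 1) → E) : Set (MvPolynomial (Fin (N + 1)) F) :=
  ext F I ∪ {f | ∃ c : Fin (N + 1) → F, ∑ j, c j • x j = 0 ∧ f = lp c}

theorem homog_XW {k₀ F E : Type u} [Field k₀] [Field F] [Field E] [Algebra k₀ F] [Algebra F E] {N : ℕ}
    {I : Set (MvPolynomial (Fin (N + 1)) k₀)} (hI : Homog I) (x : Fin (N + 1) → E) : Homog (XW (F := F) I x) := by
  rintro f (hf | ⟨c, -, rfl⟩)
  · exact homog_ext hI f hf
  · exact ⟨1, homog_lp c⟩

/-- algebraic independence goes to the next copy -/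
theorem Cop.algInd {M E Ω : Type u} [Field M] [Field E] [Field Ω] [Algebra M E] [Algebra M Ω] {p : ℕ} (C : Cop M E Ω p)
    (a : Fin p) {ι : Type u} (z : ι → E) (hz : AlgebraicIndependent M z) (P : MvPolynomial ι Ω)
    (hP : ∀ m, P.coeff m ∈ C.L a) (h : eval (fun i => C.φ a (z i)) P = 0) : P = 0 := by
  classical
  let e := P.support.equivFin
  let w : Fin P.support.card → E := fun k => ((e.symm k : ι →₀ ℕ)).prod fun i n => z i ^ n
  have hw : LinearIndependent M w := by
    have h1 : LinearIndependent M fun m : ι →₀ ℕ => (monomial m (1 : M)) := (basisMonomials ι M).linearIndependent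
    have h2 := h1.map' (aeval z : MvPolynomial ι M →ₐ[M] E).toLinearMap (LinearMap.ker_eq_bot.mpr hz)
    have h3 := h2.comp (fun k : Fin P.support.card => (e.symm k : ι →₀ ℕ)) (Subtype.val_injective.comp e.symm.injective)
    have h4 : w = ((aeval z : MvPolynomial ι M →ₐ[M] E).toLinearMap ∘ fun m : ι →₀ ℕ => (monomial m (1 : M))) ∘
        fun k : Fin P.support.card => (e.symm k : ι →₀ ℕ) := by
      funext k
      show _ = aeval z (monomial (e.symm k : ι →₀ ℕ) (1 : M))
      rw [aeval_monomial, map_one, one_mul]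
    rw [h4]
    exact h3
  have hsum : ∑ k, P.coeff (e.symm k : ι →₀ ℕ) * C.φ a (w k) = 0 := by
    rw [← h, eval_eq, ← Finset.sum_coe_sort P.support]
    refine (e.symm.sum_comp (fun m : P.support => coeff (m : ι →₀ ℕ) P * C.φ a ((m : ι →₀ ℕ).prod fun i n => z i ^ n))).trans ?_
    refine Finset.sum_congr rfl fun k _ => ?_
    congr 1
    rw [Finsupp.prod, map_prod]
    refine Finset.prod_congr rfl fun i _ => ?_
    rw [map_pow]
  have h0 := C.ld a w hw (fun k => P.coeff (e.symm k : ι →₀ ℕ)) (fun k => hP _) hsum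
  ext m
  rw [coeff_zero]
  by_contra hm
  have hmem : m ∈ P.support := by
    rw [mem_support_iff]
    exact hm
  have h1 := h0 (e ⟨m, hmem⟩)
  rw [Equiv.symm_apply_apply] at h1
  exact hm h1

/-- A point over an extension of `F` which satisfies the equations of `X` and the relations of `x`, and is as general over `F` as `x` over `M`. -/
theorem exists_twist {k₀ F E M : Type u} [Field k₀] [Field F] [Field E] [Field M] [Algebra k₀ F] [Algebra F E]
    [Algebra k₀ E] [IsScalarTower k₀ F E] [Algebra M F] [Algebra M E] [IsScalarTower M F E] [IsAlgClosed M] {N : ℕ}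
    (I : Set (MvPolynomial (Fin (N + 1)) k₀)) (hM : ∀ c : k₀, ∃ m : M, algebraMap k₀ F c = algebraMap M F m)
    (x : Fin (N + 1) → E) (j0 : Fin (N + 1)) (hx0 : x j0 = 1) (hX : OnX I x)
    (hdef : ∀ c : Fin (N + 1) → F, ∑ j, c j • x j = 0 → c ∈ Submodule.span F {c' : Fin (N + 1) → F |
      (∀ j, ∃ m : M, c' j = algebraMap M F m) ∧ ∑ j, c' j • x j = 0}) :
    ∃ (K : Type u) (_ : Field K) (_ : Algebra F K) (y : Fin (N + 1) → K), y j0 = 1 ∧ OnX (XW (F := F) I x) y ∧
      rk M (Set.range x) ≤ rk F (Rat y) := by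
  classical
  obtain ⟨Ω, hΩ, -, hMΩ, ⟨C⟩⟩ := exists_cop M E 2
  let aF : Algebra F Ω := ((C.φ 0 : E →+* Ω).comp (algebraMap F E)).toAlgebra
  have haF : ∀ c : F, algebraMap F Ω c = C.φ 0 (algebraMap F E c) := fun _ => rfl
  have haM : ∀ m : M, algebraMap F Ω (algebraMap M F m) = C.φ 1 (algebraMap M E m) := by
    intro m
    rw [haF, ← IsScalarTower.algebraMap_apply M F E, AlgHom.commutes, AlgHom.commutes]
  refine ⟨Ω, hΩ, aF, fun j => C.φ 1 (x j), ?_, ?_, ?_⟩
  · show C.φ 1 (x j0) = 1
    rw [hx0, map_one]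
  · rintro f (⟨f, hf, rfl⟩ | ⟨c, hc, rfl⟩)
    · have h1 := hX f hf
      rw [aeval_def, eval₂_map]
      have h2 : (algebraMap F Ω).comp (algebraMap k₀ F) = (C.φ 1 : E →+* Ω).comp (algebraMap k₀ E) := by
        ext c
        obtain ⟨m, hm⟩ := hM c
        show algebraMap F Ω (algebraMap k₀ F c) = C.φ 1 (algebraMap k₀ E c)
        rw [IsScalarTower.algebraMap_apply k₀ F E, hm, haM, ← IsScalarTower.algebraMap_apply M F E]
      rw [h2]
      have h3 := hom_eval₂ f (algebraMap k₀ E) (C.φ 1 : E →+* Ω) x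
      rw [← aeval_def, h1, map_zero] at h3
      exact h3.symm
    · rw [aeval_lp]
      have h1 := hdef c hc
      refine Submodule.span_induction (p := fun c _ => lin c (fun j => C.φ 1 (x j)) = 0) ?_ ?_ ?_ ?_ h1
      · rintro c ⟨hc1, hc2⟩
        have h2 : lin c (fun j => C.φ 1 (x j)) = C.φ 1 (∑ j, c j • x j) := by
          unfold lin
          rw [map_sum]
          refine Finset.sum_congr rfl fun j _ => ?_
          obtain ⟨m, hm⟩ := hc1 j
          rw [hm, haM, ← map_mul, Algebra.smul_def, ← IsScalarTower.algebraMap_apply M F E]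
        rw [h2, hc2, map_zero]
      · unfold lin
        simp
      · intro a b _ _ ha hb
        have h2 : lin (a + b) (fun j => C.φ 1 (x j)) = lin a (fun j => C.φ 1 (x j)) + lin b fun j => C.φ 1 (x j) := by
          unfold lin
          rw [← Finset.sum_add_distrib]
          refine Finset.sum_congr rfl fun j _ => ?_
          rw [Pi.add_apply, map_add, add_mul]
        rw [h2, ha, hb, add_zero]
      · intro t a _ ha
        have h2 : lin (t • a) (fun j => C.φ 1 (x j)) = algebraMap F Ω t * lin a fun j => C.φ 1 (x j) := by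
          unfold lin
          rw [Finset.mul_sum]
          refine Finset.sum_congr rfl fun j _ => ?_
          rw [Pi.smul_apply, smul_eq_mul, map_mul, mul_assoc]
        rw [h2, ha, mul_zero]
  · obtain ⟨b, hb, hbi, hbc⟩ := exists_basis (k := M) (Set.range x)
    have h1 : AlgebraicIndependent F fun z : b => C.φ 1 (z : E) := by
      rw [algebraicIndependent_iff]
      intro P hP
      have h2 := C.algInd 1 (fun z : b => (z : E)) hbi (map (algebraMap F Ω) P) (fun m => by
        rw [coeff_map, haF]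
        exact C.mem 1 0 (by decide) _) (by
        rw [← eval₂_eq_eval_map]
        exact hP)
      exact map_injective _ (FaithfulSMul.algebraMap_injective F Ω) (h2.trans (map_zero _).symm)
    have h2 := rk_of_algInd _ h1
    have h3 : Set.range (fun z : b => C.φ 1 (z : E)) ⊆ Rat fun j => C.φ 1 (x j) := by
      rintro _ ⟨⟨z, hz⟩, rfl⟩
      obtain ⟨j, rfl⟩ := hb hz
      refine ⟨j, j0, ?_⟩
      show C.φ 1 (x j) = C.φ 1 (x j) / C.φ 1 (x j0)
      rw [hx0, map_one, div_one]
    refine le_trans (le_of_eq ?_) (rk_mono h3)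
    rw [h2, ← hbc, Set.encard_univ]
    rfl

/-- The number of hyperplanes which meet the linear span `W` of the general point `x` in the same hyperplane. -/
theorem bprime {k₀ F E M : Type u} [Field k₀] [Field F] [Field E] [Field M] [Algebra k₀ F] [Algebra F E]
    [Algebra k₀ E] [IsScalarTower k₀ F E] [Algebra M F] [Algebra M E] [IsScalarTower M F E] [IsAlgClosed M] {N n q β : ℕ}
    (I : Set (MvPolynomial (Fin (N + 1)) k₀)) (hI : Homog I) (ℓ : Fin q → Fin (N + 1) → F) (hGP : GP F (ext F I) ℓ n)
    (hnq : n < q) (hM : ∀ c : k₀, ∃ m : M, algebraMap k₀ F c = algebraMap M F m)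
    (x : Fin (N + 1) → E) (j0 : Fin (N + 1)) (hx0 : x j0 = 1) (hX : OnX I x)
    (hdef : ∀ c : Fin (N + 1) → F, ∑ j, c j • x j = 0 → c ∈ Submodule.span F {c' : Fin (N + 1) → F |
      (∀ j, ∃ m : M, c' j = algebraMap M F m) ∧ ∑ j, c' j • x j = 0})
    (hβ1 : 1 ≤ β) (hβ : (β : ℕ∞) ≤ rk M (Set.range x)) (B : Finset (Fin q)) (lam : Fin (N + 1) → F)
    (hB : ∀ i ∈ B, ℓ i ∈ Submodule.span F ({lam} ∪ {c : Fin (N + 1) → F | ∑ j, c j • x j = 0})) :
    B.card + β ≤ n + 1 := by
  classical
  by_contra hcon
  push Not at hcon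
  obtain ⟨K, _, _, y, hy0, hyX, hyr⟩ := exists_twist I hM x j0 hx0 hX hdef
  obtain ⟨T, hTB, hTc⟩ : ∃ T ⊆ Bᶜ, T.card = min (β - 1) Bᶜ.card :=
    Finset.exists_subset_card_eq (min_le_right _ _)
  have hdis : Disjoint B T := by
    rw [Finset.disjoint_left]
    intro i hi hi'
    exact absurd hi (Finset.mem_compl.mp (hTB hi'))
  -- a common zero
  obtain ⟨K', _, _, w, hwX, hw0, hlam, hT⟩ : ∃ (K' : Type u) (_ : Field K') (_ : Algebra F K') (w : Fin (N + 1) → K'),
      OnX (XW (F := F) I x) w ∧ w ≠ 0 ∧ lin lam w = 0 ∧ ∀ i ∈ T, lin (ℓ i) w = 0 := by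
    by_contra hno
    push Not at hno
    let ℓ' : Fin (T.card + 1) → Fin (N + 1) → F := Fin.cons lam fun i => ℓ (T.equivFin.symm i)
    have hGP' : GP F (XW (F := F) I x) ℓ' T.card := by
      intro K' _ _ w hwX hw0 s hs
      by_contra hc
      push Not at hc
      have hsu : s = Finset.univ := by
        apply Finset.eq_univ_of_card
        rw [Fintype.card_fin]
        have h1 : s.card ≤ T.card + 1 := by simpa using Finset.card_le_univ s
        omega
      obtain ⟨i, hi, hi'⟩ := hno K' inferInstance inferInstance w hwX hw0 (hs 0 (by rw [hsu]; exact Finset.mem_univ _))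
      apply hi'
      have h1 := hs (Fin.succ (T.equivFin ⟨i, hi⟩)) (by rw [hsu]; exact Finset.mem_univ _)
      have h2 : ℓ' (Fin.succ (T.equivFin ⟨i, hi⟩)) = ℓ i := by
        show (Fin.cons lam (fun i => ℓ (T.equivFin.symm i)) : Fin (T.card + 1) → Fin (N + 1) → F) (Fin.succ _) = _
        rw [Fin.cons_succ, Equiv.symm_apply_apply]
      rwa [h2] at h1
    have h1 := rk_le (n := T.card) (XW (F := F) I x) (homog_XW hI x) ℓ' hGP' le_rfl y (by
      intro h
      have h2 := congrFun h j0
      rw [hy0] at h2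
      exact one_ne_zero h2) hyX ∅ (by simp) (by simp)
    have h2 := (hβ.trans hyr).trans h1
    rw [Nat.cast_le, Finset.card_empty] at h2
    omega
  have hwX' : OnX (ext F I) w := fun f hf => hwX f (Or.inl hf)
  have hBw : ∀ i ∈ B, lin (ℓ i) w = 0 := by
    intro i hi
    refine Submodule.span_induction (p := fun c _ => lin c w = 0) ?_ ?_ ?_ ?_ (hB i hi)
    · rintro c (hc | hc)
      · rw [Set.mem_singleton_iff] at hc
        rw [hc]
        exact hlam
      · have h1 := hwX (lp c) (Or.inr ⟨c, hc, rfl⟩)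
        rwa [aeval_lp] at h1
    · unfold lin
      simp
    · intro a b _ _ ha hb
      have h2 : lin (a + b) w = lin a w + lin b w := by
        unfold lin
        rw [← Finset.sum_add_distrib]
        refine Finset.sum_congr rfl fun j _ => ?_
        rw [Pi.add_apply, map_add, add_mul]
      rw [h2, ha, hb, add_zero]
    · intro t a _ ha
      have h2 : lin (t • a) w = algebraMap F K' t * lin a w := by
        unfold lin
        rw [Finset.mul_sum]
        refine Finset.sum_congr rfl fun j _ => ?_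
        rw [Pi.smul_apply, smul_eq_mul, map_mul, mul_assoc]
      rw [h2, ha, mul_zero]
  have h1 := hGP K' w hwX' hw0 (B ∪ T) (by
    intro i hi
    rcases Finset.mem_union.mp hi with hi | hi
    · exact hBw i hi
    · exact hT i hi)
  rw [Finset.card_union_of_disjoint hdis] at h1
  rcases le_total (β - 1) Bᶜ.card with h | h
  · rw [min_eq_left h] at hTc
    omega
  · rw [min_eq_right h] at hTc
    rw [Finset.card_compl, Fintype.card_fin] at hTc
    have h2 : B.card ≤ q := by simpa using Finset.card_le_univ B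
    omega

end Pool.Agent.PC
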