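import Pool.Agent.Helper77.PC.Ultra
import Pool.Agent.Helper77.GS.Cl

/-!
# One polynomial `Φ`, by an ultraproduct

`Sit I q r`: data `SL.Dat K Ω` over the base field `k₀`, `q` linear forms `ℓ i` over `K`, `r` points `X σ` over `Ω` which satisfy the
equations `I` (over `k₀`), the ratios of the norm forms `uu ℓ X i` are units, and `X s0` is not constant.
If the coefficients of `ℓ` are algebraically dependent over `k₀` for all such data, one polynomial `Φ ≠ 0` over `k₀` vanishes at all of them.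
-/

set_option autoImplicit false

namespace Pool.Agent.PC

open Filter MvPolynomial

universe u

/-- the situation of the core -/
structure Sit {k₀ : Type u} [Field k₀] {N : ℕ} (I : Set (MvPolynomial (Fin (N + 1)) k₀)) (q r : ℕ) where
  K : Type u
  Ω : Type u
  [fK : Field K]
  [fΩ : Field Ω]
  [aΩ : Algebra K Ω]
  [aK : Algebra k₀ K]
  D : SL.Dat K Ω
  ℓ : Fin q → Fin (N + 1) → K
  X : Fin r → Fin (N + 1) → Ω
  s0 : Fin r
  hU : ∀ i j, D.U (GS.uu ℓ X i / GS.uu ℓ X j)
  hI : ∀ σ, ∀ f ∈ I, eval₂ ((algebraMap K Ω).comp (algebraMap k₀ K)) (X σ) f = 0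
  hrk : (1 : ℕ∞) ≤ GS.rk K (GS.Rat (X s0))

attribute [instance] Sit.fK Sit.fΩ Sit.aΩ Sit.aK

/-- the coefficients as a family -/
def Sit.co {k₀ : Type u} [Field k₀] {N : ℕ} {I : Set (MvPolynomial (Fin (N + 1)) k₀)} {q r : ℕ} (s : Sit I q r) :
    Fin q × Fin (N + 1) → s.K := fun p => s.ℓ p.1 p.2

theorem exists_tr {K Ω : Type u} [Field K] [Field Ω] [Algebra K Ω] {N : ℕ} (y : Fin (N + 1) → Ω)
    (h : (1 : ℕ∞) ≤ GS.rk K (GS.Rat y)) : ∃ a b, Transcendental K (y a / y b) := by
  by_contra hc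
  push Not at hc
  have h1 : GS.Rat y ⊆ GS.cl K (∅ : Set Ω) := by
    rintro z ⟨a, b, rfl⟩
    rw [GS.mem_cl]
    have h2 : IsAlgebraic K (y a / y b) := by
      have := hc a b
      rwa [Transcendental, not_not] at this
    exact h2.extendScalars (algebraMap K (Algebra.adjoin K (∅ : Set Ω))).injective
  have h2 := GS.rk_le_of_subset h1
  have h3 : GS.rk K (∅ : Set Ω) ≤ 0 := by
    refine (GS.rk_le_card _).trans ?_
    simp
  have h4 := h.trans (h2.trans h3)
  exact absurd h4 (by simp)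

theorem rk_of_tr {K Ω : Type u} [Field K] [Field Ω] [Algebra K Ω] {N : ℕ} (y : Fin (N + 1) → Ω) (a b : Fin (N + 1))
    (h : Transcendental K (y a / y b)) : (1 : ℕ∞) ≤ GS.rk K (GS.Rat y) := by
  have h1 : AlgebraicIndependent K (fun _ : Unit => y a / y b) := by
    rw [algebraicIndependent_unique_type_iff]
    exact h
  have h2 := GS.rk_of_algInd _ h1
  have h3 : Set.range (fun _ : Unit => y a / y b) ⊆ GS.Rat y := by
    rintro _ ⟨_, rfl⟩
    exact ⟨a, b, rfl⟩
  have h4 := GS.rk_mono (k := K) h3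
  rw [h2] at h4
  simpa using h4


/-- an ultrafilter on a commutative monoid such that every element divides almost all elements -/
theorem exists_ultra (M : Type u) [CommMonoid M] :
    ∃ W : Ultrafilter M, ∀ g : M, ∀ᶠ f in (W : Filter M), g ∣ f := by
  have hne : (⨅ g : M, 𝓟 {f : M | g ∣ f}).NeBot := by
    refine Filter.iInf_neBot_of_directed ?_ fun g => ?_
    · intro g h
      refine ⟨g * h, ?_, ?_⟩
      · exact Filter.principal_mono.2 fun f hf => (dvd_mul_right _ _).trans hf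
      · exact Filter.principal_mono.2 fun f hf => (dvd_mul_left _ _).trans hf
    · rw [Filter.principal_neBot_iff]
      exact ⟨g, dvd_rfl⟩
  refine ⟨Ultrafilter.of (⨅ g : M, 𝓟 {f : M | g ∣ f}), fun g => ?_⟩
  exact Ultrafilter.of_le (⨅ g : M, 𝓟 {f : M | g ∣ f}) (Filter.mem_iInf_of_mem g (Filter.mem_principal_self _))

theorem const_fin {J : Type u} (W : Ultrafilter J) {ι : Type} [Finite ι] (s : J → ι) :
    ∃ c, ∀ᶠ j in (W : Filter J), s j = c := by
  by_contra hc
  push Not at hc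
  have h1 : ∀ c, ∀ᶠ j in (W : Filter J), s j ≠ c := hc
  rw [← Filter.eventually_all] at h1
  obtain ⟨j, hj⟩ := h1.exists
  exact hj (s j) rfl

theorem uu_mk {J : Type u} (W : Ultrafilter J) {K Ω : J → Type u} [∀ j, Field (K j)] [∀ j, Field (Ω j)]
    [∀ j, Algebra (K j) (Ω j)] {N q r : ℕ} (ℓ : ∀ j, Fin q → Fin (N + 1) → K j)
    (X : ∀ j, Fin r → Fin (N + 1) → Ω j) (i : Fin q) :
    GS.uu (fun i a => mk W K fun j => ℓ j i a) (fun σ a => mk W Ω fun j => X j σ a) i =
      mk W Ω fun j => GS.uu (ℓ j) (X j) i := by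
  unfold GS.uu
  have h : (fun j => ∏ σ, GS.lin (ℓ j i) (X j σ)) = ∏ σ, fun j => GS.lin (ℓ j i) (X j σ) := by
    funext j
    rw [Finset.prod_apply]
  rw [h, map_prod]
  refine Finset.prod_congr rfl fun σ _ => ?_
  unfold GS.lin
  have h' : (fun j => ∑ a, algebraMap (K j) (Ω j) (ℓ j i a) * X j σ a) =
      ∑ a, (fun j => algebraMap (K j) (Ω j) (ℓ j i a)) * fun j => X j σ a := by
    funext j
    rw [Finset.sum_apply]
    rfl
  rw [h', map_sum]
  refine Finset.sum_congr rfl fun a _ => ?_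
  rw [map_mul]
  rfl

theorem eval₂_mk {J : Type u} (W : Ultrafilter J) {K Ω : J → Type u} [∀ j, Field (K j)] [∀ j, Field (Ω j)]
    [∀ j, Algebra (K j) (Ω j)] {k₀ : Type u} [Field k₀] [∀ j, Algebra k₀ (K j)] {ι : Type*}
    (f : MvPolynomial ι k₀) (x : ∀ j, ι → Ω j) :
    eval₂ ((algebraMap (Up W K) (Up W Ω)).comp (algebraMap k₀ (Up W K))) (fun i => mk W Ω fun j => x j i) f =
      mk W Ω fun j => eval₂ ((algebraMap (K j) (Ω j)).comp (algebraMap k₀ (K j))) (x j) f := by
  induction f using MvPolynomial.induction_on with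
  | C a =>
    simp only [eval₂_C]
    rfl
  | add p q hp hq =>
    rw [eval₂_add, hp, hq, ← map_add]
    congr 1
    funext j
    exact (eval₂_add _ _).symm
  | mul_X p i hp =>
    rw [eval₂_mul, hp, eval₂_X, ← map_mul]
    congr 1
    funext j
    rw [eval₂_mul, eval₂_X]
    rfl

/-- the ultraproduct of situations -/
theorem ultra_sit {k₀ : Type u} [Field k₀] {N : ℕ} (I : Set (MvPolynomial (Fin (N + 1)) k₀)) (q r : ℕ)
    (h : ∀ Φ : MvPolynomial (Fin q × Fin (N + 1)) k₀, Φ ≠ 0 → ∃ s : Sit I q r, aeval s.co Φ ≠ 0) :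
    ∃ s : Sit I q r, AlgebraicIndependent k₀ s.co := by
  obtain ⟨W, hW⟩ := exists_ultra (nonZeroDivisors (MvPolynomial (Fin q × Fin (N + 1)) k₀))
  choose s hs using fun Φ : nonZeroDivisors (MvPolynomial (Fin q × Fin (N + 1)) k₀) =>
    h Φ.1 (nonZeroDivisors.ne_zero Φ.2)
  obtain ⟨s0, hs0⟩ := const_fin W fun j => (s j).s0
  choose a b hab using fun j => exists_tr _ (s j).hrk
  obtain ⟨a0, ha0⟩ := const_fin W a
  obtain ⟨b0, hb0⟩ := const_fin W b
  refine ⟨{ K := Up W fun j => (s j).K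
            Ω := Up W fun j => (s j).Ω
            D := dat W fun j => (s j).D
            ℓ := fun i a => mk W (fun j => (s j).K) fun j => (s j).ℓ i a
            X := fun σ a => mk W (fun j => (s j).Ω) fun j => (s j).X σ a
            s0 := s0
            hU := ?_
            hI := ?_
            hrk := ?_ }, ?_⟩
  · intro i i'
    rw [uu_mk W (fun j => (s j).ℓ) (fun j => (s j).X), uu_mk W (fun j => (s j).ℓ) (fun j => (s j).X), mk_div]
    exact dat_U W (Eventually.of_forall fun j => (s j).hU i i')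
  · intro σ f hf
    rw [eval₂_mk W f fun j => (s j).X σ, mk_zero]
    exact Eventually.of_forall fun j => (s j).hI σ f hf
  · refine rk_of_tr _ a0 b0 ?_
    show Transcendental _ ((mk W (fun j => (s j).Ω) fun j => (s j).X s0 a0) / mk W (fun j => (s j).Ω) fun j => (s j).X s0 b0)
    rw [mk_div]
    refine transcendental_mk W ?_
    filter_upwards [hs0, ha0, hb0] with j h1 h2 h3
    have h4 := hab j
    rw [h1, h2, h3] at h4
    exact h4
  · refine algebraicIndependent W (fun j => (s j).co) fun f hf => ?_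
    filter_upwards [hW ⟨f, mem_nonZeroDivisors_of_ne_zero hf⟩] with j hj
    obtain ⟨g, hg⟩ := hj
    intro h0
    apply hs j
    have h1 : j.1 = f * g.1 := congrArg Subtype.val hg
    rw [h1, map_mul, h0, zero_mul]

/-- one polynomial `Φ` -/
theorem exists_phi {k₀ : Type u} [Field k₀] {N : ℕ} (I : Set (MvPolynomial (Fin (N + 1)) k₀)) (q r : ℕ)
    (h : ∀ s : Sit I q r, ¬ AlgebraicIndependent k₀ s.co) :
    ∃ Φ : MvPolynomial (Fin q × Fin (N + 1)) k₀, Φ ≠ 0 ∧ ∀ s : Sit I q r, aeval s.co Φ = 0 := by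
  by_contra hc
  push Not at hc
  obtain ⟨s, hs⟩ := ultra_sit I q r hc
  exact h s hs

end Pool.Agent.PC
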