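import Pool.Agent.Helper16.SL.Defs
import Pool.Agent.Helper77.GS.Defs

/-!
# Ultraproducts of the data `SL.Dat`

`Up W K` is the ultraproduct of the fields `K j`, `mk` the class of a family. `dat W D` is the ultraproduct of the data `D j`.
-/

set_option autoImplicit false

namespace Pool.Agent.PC

open Filter

universe u

theorem li_iff {k Ω : Type u} [Field k] [Field Ω] [Algebra k Ω] {n : ℕ} (y : Fin n → Ω) :
    LinearIndependent k y ↔ ∀ g : Fin n → k, ∑ i, algebraMap k Ω (g i) * y i = 0 → ∀ i, g i = 0 := by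
  rw [Fintype.linearIndependent_iff]
  simp only [Algebra.smul_def]

section

variable {J : Type u} (W : Ultrafilter J) (K : J → Type u) [∀ j, Field (K j)]

/-- the families which are zero almost everywhere -/
def nul : Ideal (∀ j, K j) where
  carrier := {x | ∀ᶠ j in (W : Filter J), x j = 0}
  zero_mem' := Eventually.of_forall fun _ => rfl
  add_mem' := by
    intro x y hx hy
    filter_upwards [hx, hy] with j h1 h2
    rw [Pi.add_apply, h1, h2, add_zero]
  smul_mem' := by
    intro c x hx
    filter_upwards [hx] with j h1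
    rw [smul_eq_mul, Pi.mul_apply, h1, mul_zero]

theorem mem_nul {x : ∀ j, K j} : x ∈ nul W K ↔ ∀ᶠ j in (W : Filter J), x j = 0 := Iff.rfl

instance isMaximal_nul : (nul W K).IsMaximal := by
  classical
  rw [Ideal.isMaximal_iff]
  refine ⟨fun h => ?_, fun I x hI hx hxI => ?_⟩
  · rw [mem_nul] at h
    obtain ⟨j, hj⟩ := h.exists
    exact one_ne_zero hj
  · have h1 : ∀ᶠ j in (W : Filter J), x j ≠ 0 := Ultrafilter.eventually_not.2 hx
    have h2 : (1 : ∀ j, K j) - (fun j => (x j)⁻¹) * x ∈ nul W K := by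
      rw [mem_nul]
      filter_upwards [h1] with j hj
      rw [Pi.sub_apply, Pi.mul_apply, Pi.one_apply, inv_mul_cancel₀ hj, sub_self]
    have h3 := I.add_mem (hI h2) (I.mul_mem_left (fun j => (x j)⁻¹) hxI)
    rwa [sub_add_cancel] at h3

/-- the ultraproduct -/
def Up : Type u := (∀ j, K j) ⧸ nul W K

noncomputable instance : Field (Up W K) := Ideal.Quotient.field (nul W K)

/-- the class of a family -/
def mk : (∀ j, K j) →+* Up W K := Ideal.Quotient.mk (nul W K)

variable {K}

theorem mk_surj (z : Up W K) : ∃ x, mk W K x = z := Ideal.Quotient.mk_surjective z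

theorem mk_eq {x y : ∀ j, K j} : mk W K x = mk W K y ↔ ∀ᶠ j in (W : Filter J), x j = y j := by
  refine (Ideal.Quotient.eq (I := nul W K)).trans ?_
  rw [mem_nul]
  constructor
  · intro h
    filter_upwards [h] with j hj
    exact sub_eq_zero.1 hj
  · intro h
    filter_upwards [h] with j hj
    rw [Pi.sub_apply, hj, sub_self]

theorem mk_zero {x : ∀ j, K j} : mk W K x = 0 ↔ ∀ᶠ j in (W : Filter J), x j = 0 := by
  rw [← map_zero (mk W K), mk_eq]
  rfl

theorem mk_ne_zero {x : ∀ j, K j} : mk W K x ≠ 0 ↔ ∀ᶠ j in (W : Filter J), x j ≠ 0 := by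
  rw [Ne, mk_zero]
  exact Ultrafilter.eventually_not.symm

theorem mk_inv (x : ∀ j, K j) : (mk W K x)⁻¹ = mk W K fun j => (x j)⁻¹ := by
  by_cases h : mk W K x = 0
  · have h1 := (mk_zero W).1 h
    rw [h, inv_zero, eq_comm, mk_zero]
    filter_upwards [h1] with j hj
    rw [hj, inv_zero]
  · apply inv_eq_of_mul_eq_one_right
    have h1 := (mk_ne_zero W).1 h
    rw [← map_mul, ← map_one (mk W K), mk_eq]
    filter_upwards [h1] with j hj
    exact mul_inv_cancel₀ hj

theorem mk_div (x y : ∀ j, K j) : mk W K x / mk W K y = mk W K fun j => x j / y j := by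
  rw [div_eq_mul_inv, mk_inv, ← map_mul]
  congr 1
  funext j
  exact (div_eq_mul_inv _ _).symm

end

section

variable {J : Type u} (W : Ultrafilter J) {K Ω : J → Type u} [∀ j, Field (K j)] [∀ j, Field (Ω j)]
  [∀ j, Algebra (K j) (Ω j)]

/-- the map between the ultraproducts -/
noncomputable def upMap : Up W K →+* Up W Ω :=
  Ideal.Quotient.lift (nul W K) ((mk W Ω).comp (Pi.ringHom fun j => (algebraMap (K j) (Ω j)).comp (Pi.evalRingHom K j))) (by
    intro x hx
    rw [RingHom.comp_apply, mk_zero]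
    filter_upwards [hx] with j hj
    show algebraMap (K j) (Ω j) (x j) = 0
    rw [hj, map_zero])

noncomputable instance : Algebra (Up W K) (Up W Ω) := (upMap W).toAlgebra

theorem algebraMap_mk (x : ∀ j, K j) :
    algebraMap (Up W K) (Up W Ω) (mk W K x) = mk W Ω fun j => algebraMap (K j) (Ω j) (x j) := rfl

noncomputable instance base {k₀ : Type u} [Field k₀] [∀ j, Algebra k₀ (K j)] : Algebra k₀ (Up W K) :=
  ((mk W K).comp (Pi.ringHom fun j => algebraMap k₀ (K j))).toAlgebra

theorem algebraMap_base {k₀ : Type u} [Field k₀] [∀ j, Algebra k₀ (K j)] (c : k₀) :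
    algebraMap k₀ (Up W K) c = mk W K fun j => algebraMap k₀ (K j) c := rfl

/-- the ultraproduct of the data -/
noncomputable def dat (D : ∀ j, SL.Dat (K j) (Ω j)) : SL.Dat (Up W K) (Up W Ω) where
  R :=
    { carrier := {z | ∃ x : ∀ j, Ω j, (∀ j, x j ∈ (D j).R) ∧ mk W Ω x = z}
      mul_mem' := by
        rintro _ _ ⟨x, hx, rfl⟩ ⟨y, hy, rfl⟩
        exact ⟨x * y, fun j => (D j).R.mul_mem (hx j) (hy j), map_mul _ _ _⟩
      add_mem' := by
        rintro _ _ ⟨x, hx, rfl⟩ ⟨y, hy, rfl⟩
        exact ⟨x + y, fun j => (D j).R.add_mem (hx j) (hy j), map_add _ _ _⟩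
      algebraMap_mem' := by
        intro c
        obtain ⟨x, rfl⟩ := mk_surj W c
        exact ⟨fun j => algebraMap (K j) (Ω j) (x j), fun j => (D j).R.algebraMap_mem _, rfl⟩ }
  indep := by
    intro n y hy hyy
    choose hy0 hyR hyI using hy
    choose x hx hxy using hyR
    choose x' hx' hxy' using hyI
    have h1 : ∀ᶠ j in (W : Filter J), ∀ i, x i j ≠ 0 ∧ x i j ∈ (D j).R ∧ (x i j)⁻¹ ∈ (D j).R := by
      rw [Filter.eventually_all]
      intro i
      have h2 : ∀ᶠ j in (W : Filter J), x i j ≠ 0 := by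
        rw [← mk_ne_zero, hxy]
        exact hy0 i
      have h3 : mk W Ω (x' i) = mk W Ω fun j => (x i j)⁻¹ := by
        rw [hxy', ← mk_inv, hxy]
      rw [mk_eq] at h3
      filter_upwards [h2, h3] with j h4 h5
      exact ⟨h4, hx i j, h5 ▸ hx' i j⟩
    have h2 : ∀ᶠ j in (W : Filter J), ∀ i i' : Fin n, i ≠ i' → ∀ a : K j, x i j ≠ algebraMap (K j) (Ω j) a * x i' j := by
      rw [Filter.eventually_all]
      intro i
      rw [Filter.eventually_all]
      intro i'
      by_cases hii : i = i'
      · exact Eventually.of_forall fun j h => absurd hii h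
      by_contra hc
      rw [← Ultrafilter.eventually_not] at hc
      have h3 : ∀ᶠ j in (W : Filter J), ∃ a : K j, x i j = algebraMap (K j) (Ω j) a * x i' j := by
        filter_upwards [hc] with j hj
        push Not at hj
        exact hj.2
      classical
      let a : ∀ j, K j := fun j => if h : ∃ a : K j, x i j = algebraMap (K j) (Ω j) a * x i' j then h.choose else 0
      apply hyy i i' hii (mk W K a)
      rw [← hxy i, ← hxy i', algebraMap_mk, ← map_mul, mk_eq]
      filter_upwards [h3] with j hj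
      show x i j = algebraMap (K j) (Ω j) (a j) * x i' j
      have : a j = hj.choose := dif_pos hj
      rw [this]
      exact hj.choose_spec
    refine (li_iff y).2 ?_
    intro g hg
    choose c hc using fun i => mk_surj W (g i)
    have h3 : ∀ᶠ j in (W : Filter J), ∑ i, algebraMap (K j) (Ω j) (c i j) * x i j = 0 := by
      have h4 : mk W Ω (∑ i, (fun j => algebraMap (K j) (Ω j) (c i j)) * x i) = 0 := by
        rw [map_sum, ← hg]
        refine Finset.sum_congr rfl fun i _ => ?_
        rw [map_mul, hxy, ← algebraMap_mk, hc]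
      rw [mk_zero] at h4
      filter_upwards [h4] with j hj
      rw [← hj, Finset.sum_apply]
      rfl
    intro i
    rw [← hc i, mk_zero]
    filter_upwards [h1, h2, h3] with j h4 h5 h6
    have h7 := (D j).indep n (fun i => x i j) h4 h5
    exact (li_iff _).1 h7 (fun i => c i j) h6 i
  root := by
    rintro _ ⟨x, hx, rfl⟩ n hn a ha
    obtain ⟨α, rfl⟩ := mk_surj W a
    rw [algebraMap_mk, ← map_pow, mk_eq] at ha
    have h1 : ∀ᶠ j in (W : Filter J), ∃ b : K j, x j = algebraMap (K j) (Ω j) b := by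
      filter_upwards [ha] with j hj
      exact (D j).root (x j) (hx j) n hn (α j) hj
    classical
    refine ⟨mk W K fun j => if h : ∃ b : K j, x j = algebraMap (K j) (Ω j) b then h.choose else 0, ?_⟩
    rw [algebraMap_mk, mk_eq]
    filter_upwards [h1] with j hj
    rw [dif_pos hj]
    exact hj.choose_spec

theorem dat_U {D : ∀ j, SL.Dat (K j) (Ω j)} {x : ∀ j, Ω j} (h : ∀ᶠ j in (W : Filter J), (D j).U (x j)) :
    (dat W D).U (mk W Ω x) := by
  classical
  refine ⟨(mk_ne_zero W).2 (h.mono fun j hj => hj.1), ?_, ?_⟩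
  · refine ⟨fun j => if x j ∈ (D j).R then x j else 0, fun j => ?_, ?_⟩
    · by_cases hj : x j ∈ (D j).R
      · simp [hj]
      · simp [hj]
    · rw [mk_eq]
      filter_upwards [h] with j hj
      rw [if_pos hj.2.1]
  · refine ⟨fun j => if (x j)⁻¹ ∈ (D j).R then (x j)⁻¹ else 0, fun j => ?_, ?_⟩
    · by_cases hj : (x j)⁻¹ ∈ (D j).R
      · simp [hj]
      · simp [hj]
    · rw [mk_inv, mk_eq]
      filter_upwards [h] with j hj
      rw [if_pos hj.2.2]

/-- values of polynomials over `k₀` -/
theorem aeval_mk {k₀ : Type u} [Field k₀] [∀ j, Algebra k₀ (K j)] {ι : Type*} (f : MvPolynomial ι k₀)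
    (x : ∀ j, ι → K j) : MvPolynomial.aeval (fun i => mk W K fun j => x j i) f =
      mk W K fun j => MvPolynomial.aeval (x j) f := by
  induction f using MvPolynomial.induction_on with
  | C a =>
    simp only [MvPolynomial.aeval_C]
    rfl
  | add p q hp hq =>
    rw [map_add, hp, hq, ← map_add]
    congr 1
    funext j
    exact (map_add (MvPolynomial.aeval (x j)) p q).symm
  | mul_X p i hp =>
    rw [map_mul, hp, MvPolynomial.aeval_X, ← map_mul]
    congr 1
    funext j
    rw [map_mul, MvPolynomial.aeval_X]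
    rfl

theorem algebraicIndependent {k₀ : Type u} [Field k₀] [∀ j, Algebra k₀ (K j)] {ι : Type*} (x : ∀ j, ι → K j)
    (h : ∀ f : MvPolynomial ι k₀, f ≠ 0 → ∀ᶠ j in (W : Filter J), MvPolynomial.aeval (x j) f ≠ 0) :
    AlgebraicIndependent k₀ fun i => mk W K fun j => x j i := by
  rw [algebraicIndependent_iff]
  intro f hf
  by_contra hne
  rw [aeval_mk, mk_zero] at hf
  obtain ⟨j, h1, h2⟩ := (hf.and (h f hne)).exists
  exact h2 h1

/-- transcendental elements -/
theorem transcendental_mk {x : ∀ j, Ω j} (h : ∀ᶠ j in (W : Filter J), Transcendental (K j) (x j)) :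
    Transcendental (Up W K) (mk W Ω x) := by
  intro ⟨p, hp, hpx⟩
  choose c hc using fun i => mk_surj W (p.coeff i)
  have h1 : Polynomial.aeval (mk W Ω x) p =
      mk W Ω fun j => ∑ i ∈ Finset.range (p.natDegree + 1), algebraMap (K j) (Ω j) (c i j) * x j ^ i := by
    rw [Polynomial.aeval_eq_sum_range]
    have h2 : (fun j => ∑ i ∈ Finset.range (p.natDegree + 1), algebraMap (K j) (Ω j) (c i j) * x j ^ i) =
        ∑ i ∈ Finset.range (p.natDegree + 1), (fun j => algebraMap (K j) (Ω j) (c i j)) * x ^ i := by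
      funext j
      rw [Finset.sum_apply]
      rfl
    rw [h2, map_sum]
    refine Finset.sum_congr rfl fun i _ => ?_
    rw [map_mul, map_pow, ← algebraMap_mk, hc, Algebra.smul_def]
  rw [h1, mk_zero] at hpx
  have h2 : ∀ᶠ j in (W : Filter J), c p.natDegree j ≠ 0 := by
    rw [← mk_ne_zero, hc, Polynomial.coeff_natDegree]
    exact Polynomial.leadingCoeff_ne_zero.2 hp
  obtain ⟨j, h3, h4, h5⟩ := (hpx.and (h2.and h)).exists
  apply h5
  refine ⟨∑ i ∈ Finset.range (p.natDegree + 1), Polynomial.C (c i j) * Polynomial.X ^ i, ?_, ?_⟩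
  · intro h0
    have h6 := congrArg (fun f => Polynomial.coeff f p.natDegree) h0
    simp only [Polynomial.finsetSum_coeff, Polynomial.coeff_C_mul, Polynomial.coeff_X_pow, Polynomial.coeff_zero,
      mul_ite, mul_one, mul_zero] at h6
    rw [Finset.sum_ite_eq, if_pos (Finset.mem_range.2 (Nat.lt_succ_self _))] at h6
    exact h4 h6
  · rw [← h3, map_sum]
    refine Finset.sum_congr rfl fun i _ => ?_
    rw [map_mul, map_pow, Polynomial.aeval_C, Polynomial.aeval_X]

end

end Pool.Agent.PC
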