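import Pool.Agent.Helper77.PC.Sit
import Pool.Agent.Helper64.PC.Defs

/-!
# PC, block (B): the ultraproduct of the packages
-/

set_option autoImplicit false

namespace Pool.Agent.PC

open Filter MvPolynomial Pool.Agent.GS

universe u

theorem ultra : Ultra.{u} := by
  intro k₀ _ _ N q r I _ h
  obtain ⟨W, hW⟩ := exists_ultra (nonZeroDivisors (MvPolynomial (Fin q × Fin (N + 1)) k₀))
  choose s hs using fun Φ : nonZeroDivisors (MvPolynomial (Fin q × Fin (N + 1)) k₀) =>
    h Φ.1 (nonZeroDivisors.ne_zero Φ.2)
  obtain ⟨s0, hs0⟩ := const_fin W fun j => (s j).s0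
  choose a b hab using fun j => exists_tr _ (s j).gen
  obtain ⟨a0, ha0⟩ := const_fin W a
  obtain ⟨b0, hb0⟩ := const_fin W b
  have hind : AlgebraicIndependent k₀ (fun p : Fin q × Fin (N + 1) =>
      mk W (fun j => (s j).K) fun j => (s j).ℓ p.1 p.2) := by
    have h1 := algebraicIndependent (k₀ := k₀) W (K := fun j => (s j).K) (ι := Fin q × Fin (N + 1))
      (fun j p => (s j).ℓ p.1 p.2)
    refine h1 fun f hf => ?_
    filter_upwards [hW ⟨f, mem_nonZeroDivisors_of_ne_zero hf⟩] with j hj
    obtain ⟨g, hg⟩ := hj
    intro h0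
    apply hs j
    have h1 : j.1 = f * g.1 := congrArg Subtype.val hg
    rw [h1, map_mul, h0, zero_mul]
  refine ⟨{ K := Up W fun j => (s j).K
            Ω := Up W fun j => (s j).Ω
            a3 := base W
            t := ?_
            D := dat W fun j => (s j).D
            ℓ := fun i a => mk W (fun j => (s j).K) fun j => (s j).ℓ i a
            X := fun σ a => mk W (fun j => (s j).Ω) fun j => (s j).X σ a
            s0 := s0
            onX := ?_
            unit := ?_
            gen := ?_ }, ?_⟩
  · refine IsScalarTower.of_algebraMap_eq fun c => ?_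
    rw [algebraMap_base, algebraMap_base, algebraMap_mk]
    congr 1
    funext j
    exact IsScalarTower.algebraMap_apply k₀ (s j).K (s j).Ω c
  · intro σ f hf
    rw [aeval_mk W f fun j => (s j).X σ, mk_zero]
    exact Eventually.of_forall fun j => (s j).onX σ f hf
  · intro i
    rw [uu_mk W (fun j => (s j).ℓ) (fun j => (s j).X)]
    exact dat_U W (Eventually.of_forall fun j => (s j).unit i)
  · refine rk_of_tr _ a0 b0 ?_
    show Transcendental _ ((mk W (fun j => (s j).Ω) fun j => (s j).X s0 a0) / mk W (fun j => (s j).Ω) fun j => (s j).X s0 b0)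
    rw [mk_div]
    refine transcendental_mk W ?_
    filter_upwards [hs0, ha0, hb0] with j h1 h2 h3
    have h4 := hab j
    rw [h1, h2, h3] at h4
    exact h4
  · exact hind

end Pool.Agent.PC
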